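import Mathlib
import Pool.Agent.H664.EX.Stm

set_option autoImplicit false

open Metric Filter Topology

namespace Pool.Agent.H122.EX

theorem fixp0 (ℓ : (Fin 2 → ℂ) → ℂ) (hℓ : DifferentiableOn ℂ ℓ (ball 0 1))
    (hb : ∀ u ∈ ball (0 : Fin 2 → ℂ) 1, ‖ℓ u‖ ≤ 1 / 64) :
    ∃ φ : ℂ → ℂ, DifferentiableOn ℂ φ (ball 0 1) ∧
      ∀ s ∈ ball (0 : ℂ) 1, ‖φ s‖ ≤ 1 / 64 ∧ φ s = ℓ ![φ s, s] := by
  have hmem : ∀ w s : ℂ, ‖w‖ < 1 → ‖s‖ < 1 → ![w, s] ∈ ball (0 : Fin 2 → ℂ) 1 := by
    intro w s hw hs
    rw [mem_ball_zero_iff, pi_norm_lt_iff one_pos]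
    intro i
    fin_cases i
    · exact hw
    · exact hs
  -- the map is a contraction in the first variable
  have hcontr : ∀ s : ℂ, ‖s‖ < 1 → ∀ w w' : ℂ, ‖w‖ ≤ 1 / 64 → ‖w'‖ ≤ 1 / 64 →
      ‖ℓ ![w, s] - ℓ ![w', s]‖ ≤ 1 / 32 * ‖w - w'‖ := by
    intro s hs w w' hw hw'
    obtain ⟨g, hg⟩ : ∃ g : ℂ → ℂ, g = fun w => ℓ ![w, s] := ⟨_, rfl⟩
    have hgd : DifferentiableOn ℂ g (ball 0 1) := by
      rw [hg]
      refine hℓ.comp (f := fun w : ℂ => ![w, s]) ?_ ?_
      · apply Differentiable.differentiableOn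
        rw [differentiable_pi]
        intro i
        fin_cases i
        · exact differentiable_id
        · exact differentiable_const _
      · intro w hw
        exact hmem w s (by simpa using hw) hs
    have hd : ∀ z ∈ ball (0 : ℂ) (1 / 2), ‖deriv g z‖ ≤ 1 / 32 := by
      intro z hz
      rw [mem_ball_zero_iff] at hz
      have h1 : ‖deriv g z‖ ≤ (1 / 64) / (1 / 2) := by
        apply Complex.norm_deriv_le_of_forall_mem_sphere_norm_le (by norm_num)
        · refine hgd.diffContOnCl_ball (U := ball 0 1) fun y hy => ?_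
          rw [mem_closedBall_iff_norm] at hy
          rw [mem_ball_zero_iff]
          have := norm_add_le (y - z) z
          rw [sub_add_cancel] at this
          linarith
        · intro y hy
          rw [hg]
          apply hb
          apply hmem _ _ _ hs
          rw [mem_sphere_iff_norm] at hy
          have := norm_add_le (y - z) z
          rw [sub_add_cancel] at this
          linarith
      linarith
    have h1 := Convex.norm_image_sub_le_of_norm_deriv_le (f := g) (s := ball (0 : ℂ) (1 / 2))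
      (fun z hz => hgd.differentiableAt (isOpen_ball.mem_nhds (ball_subset_ball (by norm_num) hz))) hd
      (convex_ball _ _) (x := w') (y := w) (by rw [mem_ball_zero_iff]; linarith)
      (by rw [mem_ball_zero_iff]; linarith)
    rw [hg] at h1
    exact h1
  -- the iterates
  obtain ⟨a, ha0, ha1⟩ : ∃ a : ℕ → ℂ → ℂ, (∀ s, a 0 s = 0) ∧ ∀ n s, a (n + 1) s = ℓ ![a n s, s] :=
    ⟨fun n => Nat.rec (fun _ => 0) (fun _ f s => ℓ ![f s, s]) n, fun _ => rfl, fun _ _ => rfl⟩
  have hab : ∀ n, ∀ s ∈ ball (0 : ℂ) 1, ‖a n s‖ ≤ 1 / 64 := by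
    intro n
    induction n with
    | zero =>
      intro s _
      rw [ha0, norm_zero]
      norm_num
    | succ n ih =>
      intro s hs
      rw [ha1]
      apply hb
      have := ih s hs
      exact hmem _ _ (by linarith) (by simpa using hs)
  have had : ∀ n, DifferentiableOn ℂ (a n) (ball 0 1) := by
    intro n
    induction n with
    | zero =>
      have : a 0 = fun _ => 0 := funext ha0
      rw [this]
      exact differentiableOn_const _
    | succ n ih =>
      have : a (n + 1) = fun s => ℓ ![a n s, s] := funext (ha1 n)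
      rw [this]
      refine hℓ.comp (f := fun s : ℂ => ![a n s, s]) ?_ ?_
      · rw [differentiableOn_pi]
        intro i
        fin_cases i
        · exact ih
        · exact differentiableOn_id
      · intro s hs
        have := hab n s hs
        exact hmem _ _ (by linarith) (by simpa using hs)
  have hdist : ∀ n, ∀ s ∈ ball (0 : ℂ) 1, dist (a n s) (a (n + 1) s) ≤ 1 / 64 * (1 / 32) ^ n := by
    intro n
    induction n with
    | zero =>
      intro s hs
      rw [ha0, dist_eq_norm, zero_sub, norm_neg, pow_zero, mul_one]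
      exact hab 1 s hs
    | succ n ih =>
      intro s hs
      rw [ha1 n s, ha1 (n + 1) s, dist_eq_norm]
      refine (hcontr s (by simpa using hs) _ _ (hab n s hs) (hab (n + 1) s hs)).trans ?_
      rw [← dist_eq_norm, pow_succ]
      have := ih s hs
      linarith
  have hlim : ∀ s, ∃ y, s ∈ ball (0 : ℂ) 1 → Tendsto (fun n => a n s) atTop (𝓝 y) := by
    intro s
    by_cases hs : s ∈ ball (0 : ℂ) 1
    · obtain ⟨y, hy⟩ := cauchySeq_tendsto_of_complete
        (cauchySeq_of_le_geometric (1 / 32) (1 / 64) (by norm_num) (fun n => hdist n s hs))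
      exact ⟨y, fun _ => hy⟩
    · exact ⟨0, fun h => absurd h hs⟩
  choose φ hφ using hlim
  have hunif : TendstoUniformlyOn a φ atTop (ball 0 1) := by
    rw [Metric.tendstoUniformlyOn_iff]
    intro ε hε
    have h1 : Tendsto (fun n : ℕ => 1 / 64 * (1 / 32 : ℝ) ^ n / (1 - 1 / 32)) atTop (𝓝 0) := by
      have := ((tendsto_pow_atTop_nhds_zero_of_lt_one (by norm_num : (0 : ℝ) ≤ 1 / 32)
        (by norm_num)).const_mul (1 / 64)).div_const (1 - 1 / 32)
      simpa using this
    filter_upwards [h1.eventually_lt_const hε] with n hn s hs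
    rw [dist_comm]
    exact (dist_le_of_le_geometric_of_tendsto (1 / 32) (1 / 64) (by norm_num)
      (fun n => hdist n s hs) (hφ s hs) n).trans_lt hn
  refine ⟨φ, hunif.tendstoLocallyUniformlyOn.differentiableOn (Eventually.of_forall had) isOpen_ball,
    fun s hs => ?_⟩
  have hb1 : ‖φ s‖ ≤ 1 / 64 := le_of_tendsto' (hφ s hs).norm fun n => hab n s hs
  refine ⟨hb1, ?_⟩
  have hs' : ‖s‖ < 1 := by simpa using hs
  have hcont : ContinuousAt ℓ ![φ s, s] :=
    (hℓ.differentiableAt (isOpen_ball.mem_nhds (hmem _ _ (by linarith) hs'))).continuousAt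
  have h1 : Tendsto (fun n => ![a n s, s]) atTop (𝓝 ![φ s, s]) := by
    rw [tendsto_pi_nhds]
    intro i
    fin_cases i
    · exact hφ s hs
    · exact tendsto_const_nhds
  have h2 := hcont.tendsto.comp h1
  have h3 : Tendsto (fun n => a (n + 1) s) atTop (𝓝 (φ s)) := (tendsto_add_atTop_iff_nat 1).2 (hφ s hs)
  have h4 : (fun n => a (n + 1) s) = ℓ ∘ fun n => ![a n s, s] := funext fun n => ha1 n s
  rw [h4] at h3
  exact tendsto_nhds_unique h3 h2

theorem fixp : Pool.Agent.H664.EX.S_fixp := fixp0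

end Pool.Agent.H122.EX
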